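import Mathlib
import Pool.Agent.helper81.DI.SpecB

/-! Module B13: transport of characters along an injective homomorphism. -/

set_option autoImplicit false

namespace Pool.Agent.DI

open Pool.Agent.helper58.DC

theorem B13_ext {K Γ : Type} [Group K] [Group Γ] {i : K →* Γ} (hi : Function.Injective i)
    (ψ : K → ℂ) (k : K) : ext0 i ψ (i k) = ψ k := hi.extend_apply ψ 0 k

theorem B13_ext' {K Γ : Type} [Group K] [Group Γ] {i : K →* Γ} (ψ : K → ℂ) (x : Γ)
    (hx : x ∉ i.range) : ext0 i ψ x = 0 := by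
  unfold ext0
  rw [Function.extend_apply']
  · rfl
  · rintro ⟨k, hk⟩
    exact hx ⟨k, hk⟩

theorem B13_mem {K Γ : Type} [Group K] [Group Γ] {i : K →* Γ} (hi : Function.Injective i)
    (N : Subgroup K) (k : K) : i k ∈ N.map i ↔ k ∈ N := by
  constructor
  · rintro ⟨k', hk', h⟩
    rw [← hi h]
    exact hk'
  · intro h
    exact ⟨k, h, rfl⟩

theorem B13 (hIRT : IRT_stmt) : B13_stmt := by
  intro K Γ _ _ _ _ p i hi N
  have hE := fun ψ => B13_ext hi ψ
  have hE' := fun ψ => B13_ext' (i := i) ψ
  let e : N ≃* N.map i := N.equivMapOfInjective i hi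
  have he : ∀ n : N, ((e n : N.map i) : Γ) = i n := fun n =>
    Subgroup.coe_equivMapOfInjective_apply N i hi n
  have hes : ∀ h : N.map i, i (e.symm h : N) = (h : Γ) := fun h => by
    rw [← he, MulEquiv.apply_symm_apply]
  refine ⟨fun ψ => ⟨hE ψ, hE' ψ⟩, ?_, ?_, ?_, ?_, ?_⟩
  · intro ψ
    constructor
    · rintro ⟨h0, h1⟩
      refine ⟨?_, ?_⟩
      · intro x hx
        by_cases hr : x ∈ i.range
        · obtain ⟨k, rfl⟩ := hr
          rw [hE ψ k]
          exact h0 k (fun hk => hx ((B13_mem hi N k).2 hk))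
        · exact hE' ψ x hr
      · have h2 := hIRT _ _ e.symm _ h1
        have h3 : (fun h : N.map i => ext0 i ψ (h : Γ)) =
            fun h : N.map i => ψ ((e.symm h : N) : K) := by
          funext h
          rw [← hes h, hE ψ]
        rw [h3]
        exact h2
    · rintro ⟨h0, h1⟩
      refine ⟨?_, ?_⟩
      · intro k hk
        rw [← hE ψ k]
        exact h0 _ (fun h => hk ((B13_mem hi N k).1 h))
      · have h2 := hIRT _ _ e _ h1
        have h3 : (fun n : N => ψ (n : K)) = fun n : N => ext0 i ψ ((e n : N.map i) : Γ) := by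
          funext n
          rw [he n, hE ψ]
        rw [h3]
        exact h2
  · rintro φ ⟨h0, -⟩
    refine ⟨fun k => φ (i k), ?_⟩
    funext x
    by_cases hr : x ∈ i.range
    · obtain ⟨k, rfl⟩ := hr
      rw [hE]
    · rw [hE' _ x hr]
      refine (h0 x ?_).symm
      rintro ⟨k, -, hk⟩
      exact hr ⟨k, hk⟩
  · intro ψ ψ' h
    funext k
    rw [← hE ψ k, ← hE ψ' k, h]
  · intro ψ d
    have h1 : ext0 i ψ 1 = ψ 1 := by
      have := hE ψ 1
      rw [map_one] at this
      exact this
    have h2 : Nat.card (N.map i : Subgroup Γ) = Nat.card N := (Nat.card_congr e.toEquiv).symm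
    unfold Defect
    rw [h1, h2]
  · intro ψ α m h
    funext x
    have hc : (MulAut.conj m)⁻¹ x = m⁻¹ * x * m := by
      rw [← map_inv, MulAut.conj_apply, inv_inv]
    unfold funMap
    rw [hc]
    by_cases hr : x ∈ i.range
    · obtain ⟨k, rfl⟩ := hr
      rw [hE]
      have h1 : m⁻¹ * i k * m = i (α⁻¹ k) := by
        have h2 := h (α⁻¹ k)
        rw [MulAut.apply_inv_self] at h2
        rw [h2]
        group
      rw [h1, hE]
    · rw [hE' _ x hr, hE']
      rintro ⟨k, hk⟩
      apply hr
      refine ⟨α k, ?_⟩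
      rw [h k, hk]
      group

end Pool.Agent.DI
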