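import Mathlib
import Pool.Agent.helper81.DI.SpecD

/-! Module D13: Moebius inversion, zero form. -/

set_option autoImplicit false

namespace Pool.Agent.DI

theorem D13 : D13_stmt := by
  classical
  intro A _ _ a h U
  have hfin : Finite (Subgroup A) := inferInstance
  induction U using WellFoundedGT.induction with
  | ind U ih =>
    have h1 := h U
    rw [finsum_eq_single (fun V : {V : Subgroup A // U ≤ V} => a V.1) ⟨U, le_refl U⟩ ?_] at h1
    · exact h1
    · rintro ⟨V, hV⟩ hne
      refine ih V (lt_of_le_of_ne hV ?_)
      intro he
      apply hne
      exact Subtype.ext he.symm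

end Pool.Agent.DI
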